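import Mathlib
import Pool.Agent.Results.MP_e7abc8_al.NonHopfian
import Pool.Agent.Y573.RF.Sep

/-!
# Continuum many varieties with free algebras that are not residually finite and not Hopfian

For every finite field `F` there are polynomials `p, h_0, h_1, ...` in one variable such that for
every set `T` of natural numbers all free algebras of finite rank `n ≥ 1` of the variety defined by
`p` and the `h_m` (`m` in `T`) have a surjective endomorphism whose kernel is infinite-dimensional;
the same infinite-dimensional space of elements lies in every ideal of finite codimension. Free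
algebras (of any positive ranks) belonging to different sets `T` are not isomorphic, not even as
rings.
-/

set_option autoImplicit false

namespace Pool.Agent.Results.MP_e7abc8_al.ContinuumManyVarieties

open FreeNonUnitalNonAssocAlgebra
open Pool.Agent.Results.MP_e7abc8_al.NonHopfian
open Pool.Agent.Y573.RF

universe u

section Defs

variable (F : Type) [Field F]

/-- The element `a` lies in every two-sided ideal `J` of `A` such that `A / J` is finite. -/
def InFiniteResidual (A : Alg.{0} F) (a : A.carrier) : Prop :=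
  ∀ J : Submodule F A.carrier, (∀ b ∈ J, ∀ c : A.carrier, b * c ∈ J ∧ c * b ∈ J) →
    Finite (A.carrier ⧸ J) → a ∈ J

/-- `A` is residually finite: no nonzero element lies in all ideals with finite quotient. -/
def ResiduallyFinite (A : Alg.{0} F) : Prop :=
  ∀ a : A.carrier, a ≠ 0 → ¬ InFiniteResidual F A a

/-- The polynomial `p` and the polynomials `h m` with `m` in `T`, all in one variable, written as
polynomials in the variable `x_0`. -/
def Identities (p : FreeNonUnitalNonAssocAlgebra F Unit)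
    (h : ℕ → FreeNonUnitalNonAssocAlgebra F Unit) (T : Set ℕ) :
    Set (FreeNonUnitalNonAssocAlgebra F ℕ) :=
  lift F (fun _ : Unit => of F (0 : ℕ)) '' insert p (h '' T)

end Defs

noncomputable section

/-! ### Ideals of finite index -/

section Ideal

variable {F : Type} [Field F] {A : Type} [NonUnitalNonAssocRing A] [Module F A]
  {J : Submodule F A}

theorem rel_mul (hJ : ∀ b ∈ J, ∀ c : A, b * c ∈ J ∧ c * b ∈ J) {b b' c c' : A}
    (h : b - b' ∈ J) (h' : c - c' ∈ J) : b * c - b' * c' ∈ J := by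
  have : b * c - b' * c' = (b - b') * c + b' * (c - c') := by
    rw [sub_mul, mul_sub]; abel
  rw [this]
  exact J.add_mem (hJ _ h _).1 (hJ _ h' _).2

theorem rel_add {b b' c c' : A} (h : b - b' ∈ J) (h' : c - c' ∈ J) :
    (b + c) - (b' + c') ∈ J := by
  have : (b + c) - (b' + c') = (b - b') + (c - c') := by abel
  rw [this]
  exact J.add_mem h h'

theorem rel_sub {b b' c c' : A} (h : b - b' ∈ J) (h' : c - c' ∈ J) :
    (b - c) - (b' - c') ∈ J := by
  have : (b - c) - (b' - c') = (b - b') - (c - c') := by abel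
  rw [this]
  exact J.sub_mem h h'

theorem rel_rpow (hJ : ∀ b ∈ J, ∀ c : A, b * c ∈ J ∧ c * b ∈ J) {b b' : A}
    (h : b - b' ∈ J) (k : ℕ) : rpow b k - rpow b' k ∈ J := by
  induction k with
  | zero => exact h
  | succ k ih => exact rel_mul hJ h ih

theorem rel_E (hJ : ∀ b ∈ J, ∀ c : A, b * c ∈ J ∧ c * b ∈ J) {b b' : A}
    (h : b - b' ∈ J) (k : ℕ) : E k b - E k b' ∈ J :=
  rel_rpow hJ (rel_mul hJ (rel_mul hJ h h) (rel_mul hJ h h)) k

theorem rel_c (hJ : ∀ b ∈ J, ∀ c : A, b * c ∈ J ∧ c * b ∈ J) {b b' : A}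
    (h : b - b' ∈ J) (k : ℕ) : c k b - c k b' ∈ J := by
  have hE := rel_E hJ h k
  have h1 := rel_mul hJ hE h
  have h2 := rel_mul hJ hE h1
  exact rel_sub (rel_mul hJ h2 hE) (rel_mul hJ hE h2)

theorem rel_f (hJ : ∀ b ∈ J, ∀ c : A, b * c ∈ J ∧ c * b ∈ J) {b b' : A}
    (h : b - b' ∈ J) (k : ℕ) : f k b - f k b' ∈ J :=
  rel_add h (rel_c hJ h k)

theorem rel_g (hJ : ∀ b ∈ J, ∀ c : A, b * c ∈ J ∧ c * b ∈ J) {b b' : A}
    (h : b - b' ∈ J) (k : ℕ) : g k b - g k b' ∈ J := by
  have hE := rel_E hJ h k
  have h1 := rel_mul hJ hE (rel_c hJ h k)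
  exact rel_add h (rel_add (rel_mul hJ hE h1) (rel_mul hJ h1 hE))

/-- If `g (f b) = b` for all `b`, then `f (g b) - b` belongs to every ideal of finite index. -/
theorem fg_mem (hJ : ∀ b ∈ J, ∀ c : A, b * c ∈ J ∧ c * b ∈ J) [Finite (A ⧸ J)] (k : ℕ)
    (hid : ∀ b : A, g k (f k b) = b) (x : A) : f k (g k x) - x ∈ J := by
  let σ : A ⧸ J → A ⧸ J := Quotient.map (fun b => f k b) (by
    intro b b' h
    exact (Submodule.quotientRel_def _).2 (rel_f hJ ((Submodule.quotientRel_def _).1 h) k))
  have hσ : ∀ b : A, σ (Submodule.Quotient.mk b) = Submodule.Quotient.mk (f k b) := fun _ => rfl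
  have hinj : Function.Injective σ := by
    intro y z h
    obtain ⟨b, rfl⟩ := Submodule.Quotient.mk_surjective _ y
    obtain ⟨b', rfl⟩ := Submodule.Quotient.mk_surjective _ z
    rw [hσ, hσ, Submodule.Quotient.eq] at h
    rw [Submodule.Quotient.eq]
    have := rel_g hJ h k
    rwa [hid, hid] at this
  obtain ⟨y, hy⟩ := (Finite.injective_iff_surjective.1 hinj) (Submodule.Quotient.mk x)
  obtain ⟨b, rfl⟩ := Submodule.Quotient.mk_surjective _ y
  rw [hσ, Submodule.Quotient.eq] at hy
  have h1 := rel_g hJ hy k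
  rw [hid] at h1
  have h2 := rel_f hJ h1 k
  have h3 : f k (g k x) - x = (f k b - x) - (f k b - f k (g k x)) := by abel
  rw [h3]
  exact J.sub_mem hy h2

end Ideal

/-! ### The sequence of elements -/

section Dseq

variable {A B : Type*} [NonUnitalNonAssocRing A] [NonUnitalNonAssocRing B]

/-- The elements `d_0 = f(g(y)) - y`, `d_{j+1} = d_j + (E (E d_j)) E`, where `E = E(y)`. -/
def dseq (k : ℕ) (y : A) : ℕ → A
  | 0 => f k (g k y) - y
  | j + 1 => dseq k y j + (E k y * (E k y * dseq k y j)) * E k y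

theorem map_dseq {G : Type*} [FunLike G A B] [NonUnitalRingHomClass G A B] (φ : G) (k : ℕ)
    (y : A) (j : ℕ) : φ (dseq k y j) = dseq k (φ y) j := by
  induction j with
  | zero => rw [dseq, dseq, map_sub, map_f, map_g]
  | succ j ih => rw [dseq, dseq, map_add, map_mul, map_mul, map_mul, map_E, ih]

theorem dseq_eq_zero (k : ℕ) (y : A) (h : f k (g k y) = y) (j : ℕ) : dseq k y j = 0 := by
  induction j with
  | zero => rw [dseq, h, sub_self]
  | succ j ih => rw [dseq, ih, mul_zero, mul_zero, zero_mul, add_zero]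

theorem dseq_mem {F : Type} [Field F] {A : Type} [NonUnitalNonAssocRing A] [Module F A]
    {J : Submodule F A} (hJ : ∀ b ∈ J, ∀ c : A, b * c ∈ J ∧ c * b ∈ J) [Finite (A ⧸ J)] (k : ℕ)
    (hid : ∀ b : A, g k (f k b) = b) (y : A) (j : ℕ) : dseq k y j ∈ J := by
  induction j with
  | zero => exact fg_mem hJ k hid y
  | succ j ih =>
    rw [dseq]
    exact J.add_mem ih (hJ _ (hJ _ (hJ _ ih _).2 _).2 _).1

end Dseq

section ModelPart

variable {F : Type} [Field F]

theorem sh_del (j : ℕ) : sh F (del.{u} F j) = del F (j + 1) := by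
  funext n
  change (if n.down = 0 then (0 : F) else if n.down - 1 = j then 1 else 0) =
    if n.down = j + 1 then 1 else 0
  by_cases h : n.down = 0
  · rw [if_pos h, if_neg (by omega)]
  · rw [if_neg h]
    by_cases h1 : n.down = j + 1
    · rw [if_pos h1, if_pos (by omega)]
    · rw [if_neg h1, if_neg (by omega)]

/-- The values of the sequence in the model. -/
theorem dseq_model (k j : ℕ) : dseq k (mk.{u} (1 : F) (fun _ => 1) 0 0) j =
    mk 0 (-del F j) 0 0 := by
  have hd : ((1 : F) ^ 4) ^ (k + 1) = 1 := by simp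
  induction j with
  | zero =>
    rw [dseq, g_model k 1 _ 0 0 1 hd (one_mul 1) (one_mul 1),
      f_model k 1 _ 0 0 1 hd (one_mul 1) (one_mul 1), mk_sub]
    have h1 : (fun _ => (1 : F)) - (1 : F) • ((fun _ => (1 : F)) - bk F (fun _ => (1 : F))) =
        (fun _ => (1 : F) : Seq.{u} F) := by
      funext n
      change (1 : F) - 1 * (1 - 1) = 1
      ring
    rw [h1]
    have h2 : ((fun _ => (1 : F) : Seq.{u} F) +
        (1 : F) • (sh F (fun _ => (1 : F)) - (fun _ => (1 : F)))) - (fun _ => (1 : F)) =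
        -del F 0 := by
      funext n
      change ((1 : F) + 1 * ((if n.down = 0 then (0 : F) else 1) - 1)) - 1 =
        -(if n.down = 0 then (1 : F) else 0)
      by_cases h : n.down = 0
      · rw [if_pos h, if_pos h]
        ring
      · rw [if_neg h, if_neg h]
        ring
    rw [h2, sub_self, sub_self]
  | succ j ih =>
    rw [dseq, ih, E_model, hd]
    simp only [mk_mul, mk_add, map_zero, sub_zero, smul_zero, mul_one,
      mul_zero, one_smul, map_neg, add_zero, sh_del]
    congr 1
    abel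

/-- The projection of the model onto the first copy of the space of sequences. -/
def pr : Model.{u} F →ₗ[F] Seq.{u} F where
  toFun x := x.2.1
  map_add' _ _ := rfl
  map_smul' _ _ := rfl

theorem li_del : LinearIndependent F (fun j : ℕ => -del.{u} F j) := by
  rw [linearIndependent_iff']
  intro s t ht i hi
  have h1 := congrFun ht ⟨i⟩
  rw [Finset.sum_apply] at h1
  have h2 : ∀ j ∈ s, (t j • (-del.{u} F j)) ⟨i⟩ = if j = i then -t i else 0 := by
    intro j _
    change t j * (-(if i = j then (1 : F) else 0)) = if j = i then -t i else 0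
    by_cases h : i = j
    · subst h
      rw [if_pos rfl, if_pos rfl]
      ring
    · rw [if_neg h, if_neg (fun h' => h h'.symm)]
      ring
  rw [Finset.sum_congr rfl h2, Finset.sum_ite_eq' s i, if_pos hi] at h1
  exact neg_eq_zero.1 h1

end ModelPart

/-! ### The varieties -/

section Var

variable (F : Type) [Field F]

/-- The identities of the variety belonging to `T`. -/
def SF (T : Set ℕ) : Set (FreeNonUnitalNonAssocAlgebra F ℕ) :=
  insert (P F) ((fun m => hp m (of F (0 : ℕ))) '' T)

/-- The polynomial `p`. -/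
def pU : FreeNonUnitalNonAssocAlgebra F Unit :=
  g (Nat.card F - 2) (f (Nat.card F - 2) (of F ())) - of F ()

/-- The polynomials `h_m`. -/
def hU (m : ℕ) : FreeNonUnitalNonAssocAlgebra F Unit := hp m (of F ())

theorem identities_eq (T : Set ℕ) : Identities F (pU F) (hU F) T = SF F T := by
  unfold Identities SF
  rw [Set.image_insert_eq, Set.image_image]
  have h1 : lift F (fun _ : Unit => of F (0 : ℕ)) (pU F) = P F := by
    rw [pU, map_sub, map_g, map_f, lift_of_apply]
    rfl
  have h2 : (fun m => lift F (fun _ : Unit => of F (0 : ℕ)) (hU F m)) =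
      fun m => hp m (of F (0 : ℕ)) := by
    funext m
    rw [hU, map_hp, lift_of_apply]
  rw [h1, h2]

theorem model_sat [Finite F] (T : Set ℕ) : Satisfies.{u} F (SF F T) ⟨Model.{u} F⟩ := by
  intro q hq v
  rcases hq with rfl | ⟨m, -, rfl⟩
  · exact model_satisfies F (P F) (Set.mem_singleton _) v
  · change lift F (v : ℕ → Model.{u} F) (hp m (of F (0 : ℕ))) = 0
    rw [map_hp, hp_model]

theorem sep_sat {m : ℕ} {T : Set ℕ} (hm : m ∉ T) :
    Satisfies.{u} F (SF F T) ⟨Sep.{u} F m⟩ := by
  intro q hq v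
  rcases hq with rfl | ⟨j, hj, rfl⟩
  · change lift F (v : ℕ → Sep.{u} F m) (P F) = 0
    rw [lift_P, gf_of_sq sep_sq, sub_self]
  · change lift F (v : ℕ → Sep.{u} F m) (hp j (of F (0 : ℕ))) = 0
    rw [map_hp]
    have hjm : j ≠ m := by
      rintro rfl
      exact hm hj
    exact hp_sep_zero hjm _

variable {F}

theorem hp_eq_zero {T : Set ℕ} {n m : ℕ} (hm : m ∈ T) {A : Alg.{0} F} {x : Fin n → A.carrier}
    (hA : IsRelFree.{u} F (SF F T) A x) (y : A.carrier) : hp m y = 0 := by
  obtain ⟨a, rfl⟩ := hA.1 y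
  rw [← map_hp, hA.2]
  intro B hB v
  have h := hB (hp m (of F (0 : ℕ))) (Or.inr ⟨m, hm, rfl⟩) (fun _ => lift F v a)
  rw [map_hp, lift_of_apply] at h
  rw [map_hp]
  exact h

theorem hp_ne_zero {T : Set ℕ} {n m : ℕ} (hm : m ∉ T) {A : Alg.{0} F}
    {x : Fin n → A.carrier} (hA : IsRelFree.{u} F (SF F T) A x) (i : Fin n) :
    hp m (x i) ≠ 0 := by
  intro h
  have h1 : lift F x (hp m (of F i)) = 0 := by
    rw [map_hp, lift_of_apply]
    exact h
  rw [hA.2] at h1
  have h2 := h1 ⟨Sep.{u} F m⟩ (sep_sat F hm) (fun _ => smk.{u} m (1 : F) 0 0)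
  change lift F (fun _ => smk.{u} m (1 : F) 0 0) (hp m (of F i)) = 0 at h2
  rw [map_hp, lift_of_apply] at h2
  exact hp_sep_ne_zero m h2

theorem exists_eval {S : Set (FreeNonUnitalNonAssocAlgebra F ℕ)} {n : ℕ} (B : Alg.{u} F)
    (hB : Satisfies F S B) (v : Fin n → B.carrier) :
    ∃ ψ : RelFree.{u} F S n →ₙₐ[F] B.carrier, ∀ a, ψ (cls a) = lift F v a := by
  let L : FreeNonUnitalNonAssocAlgebra F (Fin n) →ₗ[F] B.carrier :=
    { toFun := fun a => lift F v a
      map_add' := fun a b => by rw [map_add]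
      map_smul' := fun c a => by rw [map_smul]; rfl }
  have hker : identities.{u} F S n ≤ LinearMap.ker L := by
    intro a ha
    exact ha B hB v
  let L' : RelFree.{u} F S n →ₗ[F] B.carrier := Submodule.liftQ _ L hker
  have hL' : ∀ a, L' (cls a) = lift F v a := fun a => Submodule.liftQ_apply _ L a
  refine ⟨{ toFun := L', map_smul' := L'.map_smul, map_zero' := L'.map_zero,
            map_add' := L'.map_add, map_mul' := ?_ }, hL'⟩
  intro x y
  obtain ⟨a, rfl⟩ := cls_surj x
  obtain ⟨b, rfl⟩ := cls_surj y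
  rw [← cls_mul, hL', hL', hL', map_mul]

variable (F)

theorem relFree_id (T : Set ℕ) {n : ℕ} (b : RelFree.{u} F (SF F T) n) :
    g (Nat.card F - 2) (f (Nat.card F - 2) b) = b := by
  obtain ⟨a, rfl⟩ := cls_surj b
  have h0 : (cls (g (Nat.card F - 2) (f (Nat.card F - 2) a)) : RelFree.{u} F (SF F T) n) =
      cls a := by
    rw [cls_eq]
    intro A hA v
    have h := hA (P F) (Or.inl rfl) (fun _ => lift F v a)
    rw [lift_P] at h
    rw [map_sub, map_g, map_f]
    exact h
  have h3 := map_g (clsHom : _ →ₙₐ[F] RelFree.{u} F (SF F T) n) (f (Nat.card F - 2) a)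
    (Nat.card F - 2)
  have h4 := map_f (clsHom : _ →ₙₐ[F] RelFree.{u} F (SF F T) n) a (Nat.card F - 2)
  change cls (g _ (f _ a)) = g _ (cls (f _ a)) at h3
  change cls (f _ a) = f _ (cls a) at h4
  rw [← h4, ← h3, h0]

theorem part_one [Finite F] (T : Set ℕ) (n : ℕ) (hn : 1 ≤ n) :
    ∃ (φ : RelFree.{u} F (SF F T) n →ₙₐ[F] RelFree.{u} F (SF F T) n)
      (d : ℕ → RelFree.{u} F (SF F T) n), Function.Surjective φ ∧ LinearIndependent F d ∧
      ∀ j, φ (d j) = 0 ∧ ∀ J : Submodule F (RelFree.{u} F (SF F T) n),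
        (∀ b ∈ J, ∀ c : RelFree.{u} F (SF F T) n, b * c ∈ J ∧ c * b ∈ J) →
        Finite (RelFree.{u} F (SF F T) n ⧸ J) → d j ∈ J := by
  classical
  set k := Nat.card F - 2 with hk
  have hid : ∀ b : RelFree.{u} F (SF F T) n, g k (f k b) = b := relFree_id F T
  let i₀ : Fin n := ⟨0, hn⟩
  let x : FreeNonUnitalNonAssocAlgebra F (Fin n) := of F i₀
  let v : Fin n → FreeNonUnitalNonAssocAlgebra F (Fin n) :=
    fun i => if i = i₀ then f k x else of F i
  let w : Fin n → FreeNonUnitalNonAssocAlgebra F (Fin n) :=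
    fun i => if i = i₀ then g k x else of F i
  have hvx : lift F v x = f k x := by
    simp only [x, lift_of_apply, v, if_true]
  have hfc : ∀ a : FreeNonUnitalNonAssocAlgebra F (Fin n),
      (cls (f k a) : RelFree.{u} F (SF F T) n) = f k (cls a) := fun a =>
    map_f (clsHom : _ →ₙₐ[F] RelFree.{u} F (SF F T) n) a k
  have hgc : ∀ a : FreeNonUnitalNonAssocAlgebra F (Fin n),
      (cls (g k a) : RelFree.{u} F (SF F T) n) = g k (cls a) := fun a =>
    map_g (clsHom : _ →ₙₐ[F] RelFree.{u} F (SF F T) n) a k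
  obtain ⟨φ, hφ⟩ := exists_endo (S := SF F T) v
  have hsurj : Function.Surjective φ := by
    intro y
    obtain ⟨b, rfl⟩ := cls_surj y
    refine ⟨cls (lift F w b), ?_⟩
    rw [hφ, lift_comp]
    have h1 : ∀ i, (cls (lift F v (w i)) : RelFree.{u} F (SF F T) n) = cls (of F i) := by
      intro i
      by_cases hi : i = i₀
      · have : w i = g k x := by simp only [w, hi, if_true]
        rw [this, map_g, hvx, hi, hgc, hfc, hid]
      · have : w i = of F i := by simp only [w, hi, if_false]
        rw [this, lift_of_apply]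
        simp only [v, hi, if_false]
    rw [cls_lift_congr h1, lift_of_self]
  refine ⟨φ, dseq k (cls x), hsurj, ?_, fun j => ⟨?_, ?_⟩⟩
  · obtain ⟨ψ, hψ⟩ := exists_eval (S := SF F T) (n := n) ⟨Model.{u} F⟩ (model_sat F T)
      (fun _ => mk.{u} (1 : F) (fun _ => 1) 0 0)
    let Ψ : RelFree.{u} F (SF F T) n →ₗ[F] Seq.{u} F :=
      { toFun := fun a => pr (ψ a)
        map_add' := fun a b => by rw [map_add, map_add]
        map_smul' := fun c a => by rw [map_smul, map_smul]; rfl }
    refine LinearIndependent.of_comp Ψ ?_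
    have h1 : (Ψ ∘ dseq k (cls x)) = fun j : ℕ => -del.{u} F j := by
      funext j
      change pr (ψ (dseq k (cls x) j)) = -del.{u} F j
      rw [map_dseq, hψ, lift_of_apply]
      change pr (dseq k (mk.{u} (1 : F) (fun _ => 1) 0 0) j) = -del.{u} F j
      rw [dseq_model]
      rfl
    rw [h1]
    exact li_del
  · rw [map_dseq, hφ, hvx, hfc]
    exact dseq_eq_zero k _ (by rw [hid]) j
  · intro J hJ hfin
    exact dseq_mem hJ k hid _ j

end Var

/-- For every finite field `F` there are polynomials `p` and `h_m` (`m` a natural number) in one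
variable such that:
(1) for every set `T` of natural numbers and every `n ≥ 1`, the relatively free algebra `A` of rank
`n` of the variety defined by `p` and the `h_m` with `m` in `T` is neither Hopfian nor residually
finite; it has a surjective endomorphism and an infinite linearly independent sequence of elements
of its kernel, all of which lie in every ideal with finite quotient; and `h_m` vanishes at a free
generator of `A` exactly when `m` is in `T`;
(2) the relatively free algebras of ranks `n, n' ≥ 1` of the varieties of two different sets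
`T, T'` are not isomorphic, not even as rings. -/
theorem result (F : Type) [Field F] [Finite F] :
    ∃ (p : FreeNonUnitalNonAssocAlgebra F Unit) (h : ℕ → FreeNonUnitalNonAssocAlgebra F Unit),
      (∀ (T : Set ℕ) (n : ℕ), 1 ≤ n → ∃ (A : Alg.{0} F) (x : Fin n → A.carrier),
        IsRelFree.{u} F (Identities F p h T) A x ∧ ¬ Hopfian F A ∧ ¬ ResiduallyFinite F A ∧
        (∀ (i : Fin n) (m : ℕ), lift F (fun _ : Unit => x i) (h m) = 0 ↔ m ∈ T) ∧
        ∃ (φ : A.carrier →ₙₐ[F] A.carrier) (d : ℕ → A.carrier), Function.Surjective φ ∧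
          LinearIndependent F d ∧ ∀ j, φ (d j) = 0 ∧ InFiniteResidual F A (d j)) ∧
      (∀ (T T' : Set ℕ) (n n' : ℕ) (A A' : Alg.{0} F) (x : Fin n → A.carrier)
        (x' : Fin n' → A'.carrier), T ≠ T' → 1 ≤ n → 1 ≤ n' →
        IsRelFree.{u} F (Identities F p h T) A x → IsRelFree.{u} F (Identities F p h T') A' x' →
        IsEmpty (A.carrier ≃+* A'.carrier)) := by
  refine ⟨pU F, hU F, ?_, ?_⟩
  · intro T n hn
    rw [identities_eq]
    obtain ⟨φ, d, h1, h2, h3⟩ := part_one.{u} F T n hn
    have hA : IsRelFree.{u} F (SF F T) (relFreeAlg.{u} F (SF F T) n) gen := isRelFree_gen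
    refine ⟨relFreeAlg.{u} F (SF F T) n, gen, hA, ?_, ?_, ?_, φ, d, h1, h2, h3⟩
    · intro hH
      exact h2.ne_zero 0 (hH φ h1 ((h3 0).1.trans (map_zero φ).symm))
    · intro hR
      exact hR (d 0) (h2.ne_zero 0) (h3 0).2
    · intro i m
      rw [hU, map_hp, lift_of_apply]
      constructor
      · intro h
        by_contra hm
        exact hp_ne_zero hm hA i h
      · intro hm
        exact hp_eq_zero hm hA _
  · intro T T' n n' A A' x x' hT hn hn' hA hA'
    rw [identities_eq] at hA hA'
    refine ⟨fun e => ?_⟩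
    have hcase : (∃ m, m ∈ T ∧ m ∉ T') ∨ (∃ m, m ∈ T' ∧ m ∉ T) := by
      by_contra hcon
      push Not at hcon
      exact hT (Set.Subset.antisymm hcon.1 hcon.2)
    rcases hcase with ⟨m, hm, hm'⟩ | ⟨m, hm, hm'⟩
    · apply hp_ne_zero hm' hA' ⟨0, hn'⟩
      have h1 := hp_eq_zero hm hA (e.symm (x' ⟨0, hn'⟩))
      have h2 := map_hp e m (e.symm (x' ⟨0, hn'⟩))
      rw [h1, map_zero, e.apply_symm_apply] at h2
      exact h2.symm
    · apply hp_ne_zero hm' hA ⟨0, hn⟩
      have h1 := hp_eq_zero hm hA' (e (x ⟨0, hn⟩))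
      have h2 := map_hp e m (x ⟨0, hn⟩)
      rw [h1] at h2
      exact (map_eq_zero_iff e e.injective).1 h2

end

end Pool.Agent.Results.MP_e7abc8_al.ContinuumManyVarieties
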